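import Pool.Agent.N220.CF.Q3

/-!
# Primes `p` in `[N, 2 N]` with `(p + h) / 2` prime, for the `h` near the denominators of the convergents of almost every number

For almost every real number `ξ`, all integers `κ ≠ 0` and `c` and all but finitely many denominators `q` of the convergents of
`ξ`, ALL odd integers `h` with `|h - (κ q + c)| ≤ log ^ W q` have the property: every interval `[N, 2 N]` with
`q / log ^ A q ≤ N ≤ B q / 2` and `N + h ≥ 0` contains a prime `p` such that `(p + h) / 2` is prime, and in all windows of length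
at least `q / log ^ A q` up to `B q` the number of the primes `r` for which `|2 r - h|` is prime is as expected.
-/

set_option autoImplicit false

namespace Pool.Agent.Results.MP_39a890_nt.ConvergentHalves

open Finset Filter MeasureTheory Topology
open Pool.Agent.N220.CF (Approx Admissible HL FixedPair pairs_fixed adm_two)

/-- The number of residue classes of `n` modulo the prime `l` for which `l` divides `n (2 n - h)`. -/
def classes (h : ℤ) (l : ℕ) : ℕ :=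
  ((range l).filter (fun n : ℕ => (l : ℤ) ∣ n * (2 * (n : ℤ) - h))).card

/-- The product over the primes `l ≤ z` of the factors of the singular series. -/
noncomputable def series (h : ℤ) (z : ℕ) : ℝ :=
  ∏ l ∈ (Icc 1 z).filter Nat.Prime, (1 - (classes h l : ℝ) / l) / (1 - 1 / (l : ℝ)) ^ 2

/-- The number of the primes `r` with `y₁ < r ≤ y₂` for which `|2 r - h|` is prime. -/
def pairs (h : ℤ) (y₁ y₂ : ℕ) : ℕ :=
  ((Ioc y₁ y₂).filter (fun r : ℕ => r.Prime ∧ (2 * (r : ℤ) - h).natAbs.Prime)).card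

/-- Every interval `[N, 2 N]` with `q / log ^ A q ≤ N`, `2 N ≤ B q` and `N + h ≥ 0` contains a prime `p` for which `(p + h) / 2` is
a prime `r`. -/
def Bertrand (A B q : ℕ) (h : ℤ) : Prop :=
  ∀ N : ℕ, (q : ℝ) / Real.log q ^ A ≤ N → 2 * N ≤ B * q → 0 ≤ (N : ℤ) + h →
    ∃ p r : ℕ, p.Prime ∧ N ≤ p ∧ p ≤ 2 * N ∧ r.Prime ∧ (p : ℤ) + h = 2 * r

/-- The singular series of the pair `r`, `2 r - h` converges to a number `S > 0`, and for all `y₁ ≤ y₂ ≤ B q` with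
`y₂ - y₁ ≥ q / log ^ A q` the number of the primes `r` with `y₁ < r ≤ y₂` for which `|2 r - h|` is prime is
`S (y₂ - y₁) / log ^ 2 q` up to a relative error of at most `ε`. -/
def Asymptotic (ε : ℝ) (A B q : ℕ) (h : ℤ) : Prop :=
  ∃ S : ℝ, 0 < S ∧ Tendsto (series h) atTop (𝓝 S) ∧
    ∀ y₁ y₂ : ℕ, y₁ ≤ y₂ → y₂ ≤ B * q → (q : ℝ) / Real.log q ^ A ≤ (y₂ : ℝ) - y₁ →
      |(pairs h y₁ y₂ : ℝ) - S * ((y₂ : ℝ) - y₁) / Real.log q ^ 2| ≤ ε * (S * ((y₂ : ℝ) - y₁) / Real.log q ^ 2)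

/-- Both properties for all odd `h` with `|h - (κ q + c)| ≤ log ^ W q`. -/
def Law (κ c : ℤ) (A B W : ℕ) (ε : ℝ) (q : ℕ) : Prop :=
  ∀ h : ℤ, Odd h → |(h : ℝ) - (κ * q + c)| ≤ Real.log q ^ W → Bertrand A B q h ∧ Asymptotic ε A B q h

lemma series_eq (h : ℤ) : Pool.Agent.N220.CF.eulerProd ![1, 2] ![0, -h] = series h := by
  funext z
  unfold Pool.Agent.N220.CF.eulerProd series
  apply prod_congr rfl
  intro l _
  have h : Pool.Agent.N220.CF.omega ![1, 2] ![0, -h] l = classes h l := by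
    unfold Pool.Agent.N220.CF.omega classes
    congr 1
    apply filter_congr
    intro n _
    rw [Fin.prod_univ_two]
    simp only [Matrix.cons_val_zero, Matrix.cons_val_one]
    rw [show (1 * (n : ℤ) + 0) * (2 * n + -h) = n * (2 * (n : ℤ) - h) by ring]
  rw [h]

lemma pairs_eq (h : ℤ) (y₁ y₂ : ℕ) : Pool.Agent.N220.CF.count ![1, 2] ![0, -h] y₁ y₂ = pairs h y₁ y₂ := by
  unfold Pool.Agent.N220.CF.count pairs
  congr 1
  apply filter_congr
  intro n _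
  rw [Fin.forall_fin_two]
  simp only [Matrix.cons_val_zero, Matrix.cons_val_one]
  rw [show (1 * (n : ℤ) + 0) = n by ring, Int.natAbs_natCast, show (2 * (n : ℤ) + -h) = 2 * (n : ℤ) - h by ring]

lemma asymptotic_of {ε : ℝ} {A B q : ℕ} {h : ℤ} (H : HL ε A B q ![1, 2] ![0, -h]) : Asymptotic ε A B q h := by
  obtain ⟨S, hS0, hSt, hS⟩ := H
  rw [series_eq] at hSt
  refine ⟨S, hS0, hSt, fun y₁ y₂ h1 h2 h3 => ?_⟩
  have h4 := hS y₁ y₂ h1 h2 h3
  rw [pairs_eq] at h4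
  exact h4

lemma Asymptotic.mono {ε ε' : ℝ} {A A' B B' q : ℕ} {h : ℤ} (he : ε ≤ ε') (hA : A' ≤ A) (hB : B' ≤ B) (hq : 1 ≤ Real.log q)
    (H : Asymptotic ε A B q h) : Asymptotic ε' A' B' q h := by
  obtain ⟨S, hS0, hSt, hS⟩ := H
  refine ⟨S, hS0, hSt, fun y₁ y₂ h1 h2 h3 => (hS y₁ y₂ h1 (h2.trans (Nat.mul_le_mul_right q hB)) (le_trans ?_ h3)).trans
    (mul_le_mul_of_nonneg_right he ?_)⟩
  · have h4 : Real.log (q : ℝ) ^ A' ≤ Real.log q ^ A := pow_le_pow_right₀ hq hA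
    have h5 : 0 < Real.log (q : ℝ) ^ A' := by positivity
    exact div_le_div_of_nonneg_left (by positivity) h5 h4
  · have h4 : (0 : ℝ) ≤ (y₂ : ℝ) - y₁ := by
      have : (y₁ : ℝ) ≤ y₂ := by exact_mod_cast h1
      linarith
    positivity

/-- Bertrand's postulate from the asymptotic formula -/
lemma bertrand_of {A B B' q : ℕ} {h : ℤ} (hL : 4 ≤ Real.log q) (hq : 4 * Real.log q ^ A ≤ q)
    (hB : B * (q : ℤ) + h ≤ B' * q) (H : Asymptotic (1 / 2) (A + 1) B' q h) : Bertrand A B q h := by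
  intro N hN hN2 hNh
  obtain ⟨S, hS0, -, hS⟩ := H
  obtain ⟨u, hu⟩ : ∃ u : ℕ, (u : ℤ) = ((N : ℤ) + h) / 2 := ⟨(((N : ℤ) + h) / 2).toNat, Int.toNat_of_nonneg (by omega)⟩
  obtain ⟨v, hv⟩ : ∃ v : ℕ, (v : ℤ) = (2 * (N : ℤ) + h) / 2 := ⟨((2 * (N : ℤ) + h) / 2).toNat, Int.toNat_of_nonneg (by omega)⟩
  have huv : u ≤ v := by omega
  have hvB : v ≤ B' * q := by
    have h1 : (2 * N : ℤ) ≤ B * q := by exact_mod_cast hN2
    have h2 : (v : ℤ) ≤ B' * q := by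
      have h3 : (0 : ℤ) ≤ B' * q := by positivity
      omega
    exact_mod_cast h2
  have hLA : 0 < Real.log (q : ℝ) ^ A := by positivity
  have hlen : (N : ℝ) / 2 - 1 ≤ (v : ℝ) - u := by
    have h1 : (N : ℤ) - 2 ≤ 2 * v - 2 * u := by omega
    have h2 : (N : ℝ) - 2 ≤ 2 * v - 2 * u := by exact_mod_cast h1
    linarith
  have h4 : 4 ≤ (q : ℝ) / Real.log q ^ A := by
    rw [le_div_iff₀ hLA]
    exact hq
  have hlen2 : (q : ℝ) / Real.log q ^ A / 4 ≤ (v : ℝ) - u := by linarith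
  have hlen3 : (q : ℝ) / Real.log q ^ (A + 1) ≤ (v : ℝ) - u := by
    refine le_trans ?_ hlen2
    rw [pow_succ, ← div_div]
    exact div_le_div_of_nonneg_left (by positivity) (by norm_num) hL
  have h5 := (abs_le.1 (hS u v huv hvB hlen3)).1
  have h6 : 0 < S * ((v : ℝ) - u) / Real.log q ^ 2 := by
    have : (0 : ℝ) < (v : ℝ) - u := by linarith
    positivity
  have h7 : 0 < (pairs h u v : ℝ) := by linarith
  have h8 : 0 < pairs h u v := by exact_mod_cast h7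
  unfold pairs at h8
  obtain ⟨r, hr⟩ := card_pos.1 h8
  rw [mem_filter, mem_Ioc] at hr
  obtain ⟨⟨hr1, hr2⟩, hr3, hr4⟩ := hr
  refine ⟨(2 * (r : ℤ) - h).natAbs, r, hr4, ?_, ?_, hr3, ?_⟩
  · omega
  · omega
  · omega

lemma law_of (κ c : ℤ) (A B W : ℕ) (ε : ℝ) (hε : 0 < ε) : ∃ q₀ : ℕ, ∀ q : ℕ, q₀ ≤ q →
    FixedPair 2 (-κ) (-c) (A + 1) (B + κ.natAbs + c.natAbs + 1) W (min ε (1 / 2)) q → Law κ c A B W ε q := by
  obtain ⟨q₁, h1⟩ := Pool.Agent.H373R2.T7.ev_L' 4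
  obtain ⟨q₂, h2⟩ := Pool.Agent.H373R2.T7.ev_log' A 4
  obtain ⟨q₃, h3⟩ := Pool.Agent.H373R2.T7.ev_log' W 1
  refine ⟨q₁ + q₂ + q₃ + 1, fun q hq H h hodd hd => ?_⟩
  have hL := h1 q (by omega)
  have hq1 : (1 : ℝ) ≤ q := by exact_mod_cast (by omega : 1 ≤ q)
  have hsq : √(q : ℝ) ≤ q := by
    rw [Real.sqrt_le_left (by linarith)]
    nlinarith
  have hA := (h2 q (by omega)).trans hsq
  have hW := (h3 q (by omega)).trans hsq
  have h4 : HL (min ε (1 / 2)) (A + 1) (B + κ.natAbs + c.natAbs + 1) q ![1, 2] ![0, -h] := by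
    refine H (-h) ?_ (adm_two (-h) hodd.neg)
    push_cast
    rw [show (-(h : ℝ) - (-(κ : ℝ) * q + -(c : ℝ))) = -((h : ℝ) - (κ * q + c)) by ring, abs_neg]
    exact hd
  have h5 := asymptotic_of h4
  refine ⟨bertrand_of hL hA ?_ (h5.mono (min_le_right _ _) le_rfl le_rfl (by linarith)),
    h5.mono (min_le_left _ _) (by omega) (by omega) (by linarith)⟩
  have h6 : (h : ℝ) ≤ κ * q + c + q := by
    have := (abs_le.1 hd).2
    linarith
  have h7 : h ≤ κ * q + c + q := by exact_mod_cast h6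
  have h8 : κ * (q : ℤ) ≤ (κ.natAbs : ℤ) * q := mul_le_mul_of_nonneg_right (by omega) (by positivity)
  have h9 : c ≤ (c.natAbs : ℤ) * q := by
    have e1 : (1 : ℤ) ≤ q := by exact_mod_cast (by omega : 1 ≤ q)
    have e2 : (c.natAbs : ℤ) ≤ (c.natAbs : ℤ) * q := le_mul_of_one_le_right (by positivity) e1
    omega
  have e3 : (((B + κ.natAbs + c.natAbs + 1 : ℕ) : ℤ)) * q = B * q + (κ.natAbs : ℤ) * q + (c.natAbs : ℤ) * q + q := by
    rw [Nat.cast_add, Nat.cast_add, Nat.cast_add]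
    ring
  rw [e3]
  linarith

/-- **Primes `p` in `[N, 2 N]` with `(p + h) / 2` prime.** -/
theorem result :
    (∀ n : ℕ, 1 ≤ n → ∀ᵐ α : Fin n → ℝ, ∀ (κ c : ℤ) (A B W : ℕ) (ε : ℝ), κ ≠ 0 → 0 < ε → ∀ b : ℝ,
      {q : ℕ | Approx b (1 / n) α q ∧ ¬ Law κ c A B W ε q}.Finite) ∧
    ∀ᵐ ξ : ℝ, ∀ (κ c : ℤ) (A B W : ℕ) (ε : ℝ), κ ≠ 0 → 0 < ε → ∀ᶠ n : ℕ in atTop, Law κ c A B W ε (ξ.convergent n).den := by
  refine ⟨fun n hn => ?_, ?_⟩
  · filter_upwards [pairs_fixed.1 n hn] with α hα κ c A B W ε hκ he b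
    obtain ⟨q₀, h0⟩ := law_of κ c A B W ε he
    refine ((hα 2 (-κ) (-c) (A + 1) (B + κ.natAbs + c.natAbs + 1) W (min ε (1 / 2)) (neg_ne_zero.2 hκ) (by positivity) b).union
      (Set.finite_lt_nat q₀)).subset ?_
    rintro q ⟨h1, h2⟩
    rcases lt_or_ge q q₀ with h3 | h3
    · exact Or.inr h3
    · exact Or.inl ⟨h1, fun h4 => h2 (h0 q h3 h4)⟩
  · have hirr : ∀ᵐ ξ : ℝ, ξ ∉ Set.range ((↑) : ℚ → ℝ) := (Set.countable_range ((↑) : ℚ → ℝ)).ae_notMem volume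
    filter_upwards [pairs_fixed.2, hirr] with ξ hξ hi κ c A B W ε hκ he
    obtain ⟨q₀, h0⟩ := law_of κ c A B W ε he
    filter_upwards [hξ 2 (-κ) (-c) (A + 1) (B + κ.natAbs + c.natAbs + 1) W (min ε (1 / 2)) (neg_ne_zero.2 hκ) (by positivity),
      (Pool.Agent.N220.CF.convergent_approx (ξ := ξ) hi).2.eventually (eventually_ge_atTop q₀)] with n h4 h5
    exact h0 _ h5 h4

end Pool.Agent.Results.MP_39a890_nt.ConvergentHalves
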