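import Pool.Agent.N39.RW.UniH

set_option autoImplicit false

/-!
# Pairs `p`, `q = (p + h) / 2` of a prime and a product of two primes in all windows around a positive proportion of the
# integers, uniformly for all odd `|h| ≤ K₀ X`
-/

namespace Pool.Agent.Results.MP_39a890_nt.ShiftedHalvesInWindows

open Filter

/-- the variable part of the singular series: the product of `(ℓ - 1) / (ℓ - 2)` over the primes `ℓ ∣ h` (`h` is odd) -/
noncomputable def sigma (h : ℤ) : ℝ := ∏ l ∈ h.natAbs.primeFactors, (((l : ℝ) - 1) / (l - 2))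

/-- with `p = |2 q - h|`: `s = 0`: `p` is prime and `q` is a product of at most two primes; `s = 1`: `q` is prime and
`p` is a product of at most two primes; in both cases all prime factors of `p` and `q` are larger than `z`. -/
def Good (s : Fin 2) (z : ℝ) (h : ℤ) (q : ℕ) : Prop :=
  (if s = 0 then (2 * (q : ℤ) - h).natAbs.Prime ∧ q.primeFactorsList.length ≤ 2
    else q.Prime ∧ (2 * (q : ℤ) - h).natAbs.primeFactorsList.length ≤ 2) ∧
  ∀ l : ℕ, l.Prime → l ∣ q ∨ (l : ℤ) ∣ 2 * q - h → z < (l : ℝ)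

/-- all prime factors of `q` and `2 q - h` are larger than `z` -/
def Sieved (z : ℝ) (h : ℤ) (q : ℕ) : Prop := ∀ l : ℕ, l.Prime → l ∣ q ∨ (l : ℤ) ∣ 2 * q - h → z < (l : ℝ)

/-- `n` is regular: in ALL windows `(u, v]` with `u ≤ n ≤ v` and `K (log X) ^ 2 / σ(h) ≤ v - u ≤ n` there are at
least `c₁ σ(h) (v - u) / (log X) ^ 2` good `q`, and at most `c₂ σ(h) (v - u) / (log X) ^ 2` sieved `q`, at the level
`X ^ (1 / r)`. -/
def Regular (s : Fin 2) (r : ℕ) (c₁ c₂ K : ℝ) (X : ℕ) (h : ℤ) (n : ℕ) : Prop :=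
  ∀ u v : ℕ, u ≤ n → n ≤ v → K * Real.log X ^ 2 / sigma h ≤ (v : ℝ) - u → (v : ℝ) - u ≤ n →
    c₁ * sigma h * ((v : ℝ) - u) / Real.log X ^ 2 ≤
      ({q : ℕ | u < q ∧ q ≤ v ∧ Good s ((X : ℝ) ^ (1 / (r : ℝ))) h q}.ncard : ℝ) ∧
    ({q : ℕ | u < q ∧ q ≤ v ∧ Sieved ((X : ℝ) ^ (1 / (r : ℝ))) h q}.ncard : ℝ) ≤
      c₂ * sigma h * ((v : ℝ) - u) / Real.log X ^ 2

theorem sg_eq (h : ℤ) (ho : Odd h) : Pool.Agent.N39.RW.sg (2 * -h).natAbs = sigma h := by
  unfold Pool.Agent.N39.RW.sg sigma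
  have h0 : h ≠ 0 := by
    rintro rfl
    exact absurd ho (by decide)
  apply Finset.prod_congr _ (fun _ _ => rfl)
  ext p
  rw [Finset.mem_filter, Nat.mem_primeFactors, Nat.mem_primeFactors]
  constructor
  · rintro ⟨⟨hp, hd, -⟩, h3⟩
    refine ⟨hp, ?_, by rwa [ne_eq, Int.natAbs_eq_zero]⟩
    rcases (Pool.Agent.N39.RW.dvd_th 2 (-h) p hp).1 hd with h4 | h4
    · exfalso
      have h5 : p ∣ 2 := by exact_mod_cast h4
      have := Nat.le_of_dvd (by norm_num) h5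
      omega
    · rw [Int.dvd_neg] at h4
      exact Int.natCast_dvd.1 h4
  · rintro ⟨hp, hd, -⟩
    refine ⟨⟨hp, ?_, ?_⟩, ?_⟩
    · apply (Pool.Agent.N39.RW.dvd_th 2 (-h) p hp).2
      right
      rw [Int.dvd_neg]
      exact Int.natCast_dvd.2 hd
    · rw [ne_eq, Int.natAbs_eq_zero]
      simpa using h0
    · rcases Nat.lt_or_ge 2 p with h3 | h3
      · exact h3
      · exfalso
        have h2 : p = 2 := le_antisymm h3 hp.two_le
        subst h2
        have h4 : ((2 : ℕ) : ℤ) ∣ h := Int.natCast_dvd.2 hd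
        rw [Int.odd_iff] at ho
        omega

theorem gr_iff (h : ℤ) (z : ℝ) (m : ℕ) :
    Pool.Agent.N39.RW.GR (Pool.Agent.N39.RW.ga 2) (Pool.Agent.N39.RW.gb (-h)) z m ↔ Sieved z h m := by
  unfold Pool.Agent.N39.RW.GR Sieved
  rw [Fin.forall_fin_two]
  simp only [Pool.Agent.N39.RW.ga, Pool.Agent.N39.RW.gb, Matrix.cons_val_zero, Matrix.cons_val_one, one_mul,
    add_zero, Int.natCast_dvd_natCast, ← sub_eq_add_neg]
  constructor
  · rintro ⟨h1, h2⟩ q hq hd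
    rcases hd with hd | hd
    · exact h1 q hq hd
    · exact h2 q hq hd
  · intro h
    exact ⟨fun q hq hd => h q hq (Or.inl hd), fun q hq hd => h q hq (Or.inr hd)⟩

theorem gc (s : Fin 2) (h : ℤ) (r : ℕ) (z : ℝ) (m : ℕ)
    (hg : Pool.Agent.N39.RW.GC (Pool.Agent.N39.RW.ga 2) (Pool.Agent.N39.RW.gb (-h)) (1 - s) s r z m) :
    Good s z h m := by
  obtain ⟨h1, h2, h3⟩ := hg
  have h4 : Pool.Agent.N39.RW.GR (Pool.Agent.N39.RW.ga 2) (Pool.Agent.N39.RW.gb (-h)) z m := fun l => (h3 l).2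
  refine ⟨?_, (gr_iff h z m).1 h4⟩
  revert h1 h2
  fin_cases s
  · intro h1 h2
    simp only [Pool.Agent.N39.RW.ga, Pool.Agent.N39.RW.gb, Fin.zero_eta, Matrix.cons_val_zero,
      Matrix.cons_val_one, one_mul, add_zero, Int.natAbs_natCast, sub_zero, ← sub_eq_add_neg] at h1 h2
    exact ⟨h1, h2⟩
  · intro h1 h2
    simp only [Pool.Agent.N39.RW.ga, Pool.Agent.N39.RW.gb, Fin.mk_one, Matrix.cons_val_zero,
      Matrix.cons_val_one, one_mul, add_zero, Int.natAbs_natCast, sub_self, ← sub_eq_add_neg] at h1 h2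
    exact ⟨h1, h2⟩

theorem result : ∃ (r : ℕ) (c₁ c₂ K μ : ℝ), 1 ≤ r ∧ 0 < c₁ ∧ 0 < c₂ ∧ 0 < K ∧ 0 < μ ∧
    ∀ K₀ : ℕ, ∀ᶠ X : ℕ in atTop, ∀ (s : Fin 2) (h : ℤ), Odd h → |h| ≤ K₀ * X →
      μ * X ≤ ({n : ℕ | X < n ∧ n ≤ 2 * X ∧ Regular s r c₁ c₂ K X h n}.ncard : ℝ) := by
  classical
  obtain ⟨r, hr, c₁, c₂, K, μ, hc₁, hc₂, hK, hμ, H⟩ := Pool.Agent.N39.RW.uniH 2 (by norm_num)
  refine ⟨r, c₁, c₂, K, μ, hr, hc₁, hc₂, hK, hμ, fun K₀ => ?_⟩
  filter_upwards [H K₀] with X hX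
  intro s h ho hhX
  have h0 : h ≠ 0 := by
    rintro rfl
    exact absurd ho (by decide)
  have hhX' : (-h).natAbs ≤ K₀ * X := by
    rw [Int.natAbs_neg]
    rw [Int.abs_eq_natAbs] at hhX
    exact_mod_cast hhX
  have hco : Int.gcd 2 (-h) = 1 := by
    rw [Int.odd_iff] at ho
    have h1 : Int.gcd 2 (-h) ∣ 2 := by
      have := Int.gcd_dvd_left (a := 2) (b := -h)
      exact_mod_cast this
    have h2 : ((Int.gcd 2 (-h) : ℕ) : ℤ) ∣ h := by
      have := Int.gcd_dvd_right (a := 2) (b := -h)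
      rwa [Int.dvd_neg] at this
    rcases (Nat.dvd_prime Nat.prime_two).1 h1 with h3 | h3
    · exact h3
    · rw [h3] at h2
      omega
  have hX' := hX 2 (-h) (1 - s) s (by norm_num) (by norm_num) (by simpa using h0) hhX' hco (by
    rw [Int.natAbs_mul]
    exact Dvd.intro _ rfl) (by fin_cases s <;> decide)
  rw [sg_eq h ho] at hX'
  refine hX'.trans ?_
  rw [← Set.ncard_coe_finset]
  refine Nat.cast_le.2 (Set.ncard_le_ncard ?_ ((Set.finite_Iic (2 * X)).subset fun n hn => hn.2.1))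
  intro n hn
  rw [Finset.mem_coe, Finset.mem_filter, Finset.mem_Ioc] at hn
  obtain ⟨⟨hn1, hn2⟩, hn3⟩ := hn
  refine ⟨hn1, hn2, fun u v hu hv h1 h2 => ?_⟩
  obtain ⟨h3, h4⟩ := hn3 u v hu hv h1 h2
  rw [Pool.Agent.N39.RW.cardIoc'] at h3 h4
  constructor
  · refine h3.trans (Nat.cast_le.2 (Set.ncard_le_ncard ?_ ((Set.finite_Iic v).subset fun n hn => hn.2.1)))
    rintro m ⟨h5, h6, h7⟩
    exact ⟨h5, h6, gc s h r _ m h7⟩
  · simp only [gr_iff] at h4
    exact h4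

end Pool.Agent.Results.MP_39a890_nt.ShiftedHalvesInWindows
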