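import Pool.Agent.N469.LP.Page

/-!
# Primes `p` in intervals for which `(p + h) / 2` is prime, for all odd `h` near almost all smooth numbers

Definition used: `Pool.Agent.H560R3.GB.C₂`, the twin prime constant `∏_{p > 2} (1 - 1 / (p - 1) ^ 2)`
(the infimum of the partial products).

The proof combines an elementary bound for the exponential sum over the integers composed of primes from a given set
(`Pool.Agent.N469.SQ.exp_alt`: it is large only near few rational numbers with small denominators), the replacement of the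
von Mangoldt function at the values of a linear form by its sieve model in the second moment (`Pool.Agent.N469.LP.sm_repZ`,
based on the starting files `Pool.Agent.Y885`), and a fundamental lemma for the primes of a progression whose images
under a linear form have no small prime factors (`Pool.Agent.N469.LP.HH_main`).
-/

set_option autoImplicit false

namespace Pool.Agent.Results.MP_39a890_nt.SmoothShifts

open Finset Pool.Agent.H560R3.GB

open Classical in
/-- The number of the primes `p` with `x < p ≤ x'` such that `n = (p + h) / 2` is a prime with `n ≡ a (mod q)`. (For `h = 1`,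
`q = 1`, `x = N - 1`, `x' = 2 N` these are the primes of the problem.) -/
noncomputable def pairs (h : ℤ) (q a x x' : ℕ) : ℕ :=
  ((Ioc x x').filter fun p : ℕ => p.Prime ∧ ∃ n : ℕ, n.Prime ∧ n ≡ a [MOD q] ∧ (p : ℤ) + h = 2 * n).card

/-- The number of the classes `a mod q` such that `a` and `2 a - h` are coprime to `q`. -/
def classes (h : ℤ) (q : ℕ) : ℕ :=
  ((range q).filter fun a : ℕ => Nat.Coprime a q ∧ Int.gcd (2 * (a : ℤ) - h) q = 1).card

/-- The main term of the conjecture of Hardy and Littlewood. -/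
noncomputable def main (h : ℤ) (N q x x' : ℕ) : ℝ :=
  2 * C₂ * (∏ p ∈ h.natAbs.primeFactors.filter (fun p => 2 < p), ((p : ℝ) - 1) / ((p : ℝ) - 2)) / classes h q *
    (((x' : ℝ) - x) / (2 * Real.log N ^ 2))

/-- (a) The number of the primes `p` with `x < p ≤ x'` for which `(p + h) / 2` is a prime of the class `a mod q` is
asymptotically the expected number, for all `q ≤ (log N) ^ D`, all admissible classes `a`, and all the intervals
`(x, x']` of length at least `N / (log N) ^ W`, on which `p ≤ B N` and `0 < (p + h) / 2 ≤ B N`.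
(b) In all the intervals `[M, 2 M]`, `M ≥ N / (log N) ^ W`, on which `p ≤ B N` and `0 < (p + h) / 2 ≤ B N`, there is a prime
`p` for which `(p + h) / 2` is prime. -/
def Holds (ε : ℝ) (B D W N : ℕ) (h : ℤ) : Prop :=
  (∀ q a x x' : ℕ, 1 ≤ q → (q : ℝ) ≤ Real.log N ^ D → Nat.Coprime a q → Int.gcd (2 * (a : ℤ) - h) q = 1 →
    x' ≤ B * N → (x' : ℤ) + h ≤ 2 * B * N → 0 ≤ (x : ℤ) + h → (x : ℝ) + N / Real.log N ^ W ≤ x' →
    |(pairs h q a x x' : ℝ) - main h N q x x'| ≤ ε * main h N q x x') ∧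
  (∀ M : ℕ, N / Real.log N ^ W ≤ M → 2 * M ≤ B * N → 2 * (M : ℤ) + h ≤ 2 * B * N → 0 ≤ (M : ℤ) + h →
    ∃ p : ℕ, p.Prime ∧ M ≤ p ∧ p ≤ 2 * M ∧ ∃ n : ℕ, n.Prime ∧ (p : ℤ) + h = 2 * n)

/-- The integers `1 ≤ v ≤ N` all of whose prime factors belong to `P`. -/
def composedOf (P : Finset ℕ) (N : ℕ) : Finset ℕ := (Icc 1 N).filter fun v => v.primeFactors ⊆ P

/-- The `y`-smooth integers `1 ≤ v ≤ N`: the integers all of whose prime factors are at most `y`. -/
def smooth (y N : ℕ) : Finset ℕ := (Icc 1 N).filter fun v => ∀ p ∈ v.primeFactors, p ≤ y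

open Pool.Agent.N469.LP in
theorem holds_of (ε : ℝ) (hε : 0 < ε) (hε1 : ε < 1) (B D W : ℕ) : ∃ N₀ : ℕ, ∀ N, N₀ ≤ N → ∀ h : ℤ, Odd h →
    GoodL (ε / 3) B D (W + 1) 2 N (-h) → Holds ε B D W N h := by
  classical
  obtain ⟨n1, h1⟩ := Pool.Agent.H373R2.T7.ev_L' (24 / ε + 4)
  obtain ⟨n2, h2⟩ := Pool.Agent.H373R2.T7.ev_log' (W + 2) 1
  refine ⟨n1 + n2 + 4, fun N hN h hodd hgood => ?_⟩
  have hL := h1 N (by omega)
  have hs := h2 N (by omega)
  rw [one_mul] at hs
  have hN0 : (0 : ℝ) < N := by exact_mod_cast (by omega : 0 < N)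
  obtain ⟨L, hLd⟩ : ∃ L, L = Real.log (N : ℝ) := ⟨_, rfl⟩
  unfold Holds
  unfold GoodL at hgood
  unfold main
  rw [← hLd] at hL hs hgood ⊢
  have p1 : 24 < 24 / ε := by
    rw [lt_div_iff₀ hε]
    linarith
  have hL4 : 4 ≤ L := by linarith
  have hL1 : 1 ≤ L := by linarith
  have hL0 : 0 < L := by linarith
  have hss : √(N : ℝ) * √(N : ℝ) = N := Real.mul_self_sqrt hN0.le
  have hbig : 24 / ε ≤ N / L ^ W := by
    rw [le_div_iff₀ (by positivity)]
    have hs1 : 1 ≤ √(N : ℝ) := (one_le_pow₀ hL1).trans hs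
    calc 24 / ε * L ^ W ≤ L * L ^ W := by
          have : 24 / ε ≤ L := by linarith
          gcongr
      _ = L ^ (W + 1) := by ring
      _ ≤ L ^ (W + 2) := pow_le_pow_right₀ hL1 (by omega)
      _ ≤ √N := hs
      _ ≤ √N * √N := by nlinarith
      _ = N := hss
  have hne : h ≠ 0 := by
    rintro rfl
    simp at hodd
  have hg : Int.gcd 2 (-h) = 1 := by
    obtain ⟨k, hk⟩ := hodd
    rw [hk, Int.gcd_neg]
    simp
  have hmainpos : ∀ q : ℕ, 0 < q → 0 < 2 * C₂ * (∏ p ∈ h.natAbs.primeFactors.filter (fun p => 2 < p), ((p : ℝ) - 1) / ((p : ℝ) - 2)) / classes h q := by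
    intro q hq
    have e1 := sing_pow 1 2 (-h) (by norm_num) (neg_ne_zero.2 hne)
    rw [Int.natAbs_neg] at e1
    rw [← e1]
    apply div_pos
    · have := Pool.Agent.W93.GB.one_le_sing (2 * -h).natAbs
      linarith
    · have e2 := adm_eq 2 (-h) hg q hq
      have e3 := cnt_pos q (2 * -h).natAbs hq (by rw [Int.natAbs_mul]; exact dvd_mul_right _ _)
      rw [← e2] at e3
      unfold adm at e3
      simp only [← sub_eq_add_neg] at e3
      exact_mod_cast e3
  have hA : ∀ q a x x' : ℕ, 1 ≤ q → (q : ℝ) ≤ L ^ D → Nat.Coprime a q → Int.gcd (2 * (a : ℤ) - h) q = 1 →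
      x' ≤ B * N → (x' : ℤ) + h ≤ 2 * B * N → 0 ≤ (x : ℤ) + h → (x : ℝ) + N / L ^ W ≤ x' →
      |(pairs h q a x x' : ℝ) - 2 * C₂ * (∏ p ∈ h.natAbs.primeFactors.filter (fun p => 2 < p), ((p : ℝ) - 1) / ((p : ℝ) - 2)) / classes h q *
        (((x' : ℝ) - x) / (2 * L ^ 2))| ≤ ε * (2 * C₂ * (∏ p ∈ h.natAbs.primeFactors.filter (fun p => 2 < p), ((p : ℝ) - 1) / ((p : ℝ) - 2)) / classes h q *
        (((x' : ℝ) - x) / (2 * L ^ 2))) := by
    intro q a x x' hq hqD ha hga hx' hxB hx0 hxx'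
    have hxx : (x : ℤ) ≤ x' := by
      have : (x : ℝ) ≤ x' := by
        have : 0 < (N : ℝ) / L ^ W := by positivity
        linarith
      exact_mod_cast this
    obtain ⟨M, hM⟩ : ∃ M : ℕ, M = (((x : ℤ) + h) / 2).toNat := ⟨_, rfl⟩
    obtain ⟨M', hM'⟩ : ∃ M' : ℕ, M' = (((x' : ℤ) + h) / 2).toNat := ⟨_, rfl⟩
    have m1 : 2 * (M : ℤ) ≤ x + h ∧ (x : ℤ) + h < 2 * M + 2 := by omega
    have m2 : 2 * (M' : ℤ) ≤ x' + h ∧ (x' : ℤ) + h < 2 * M' + 2 := by omega
    have m1r : 2 * (M : ℝ) ≤ x + h ∧ (x : ℝ) + h < 2 * M + 2 := ⟨by exact_mod_cast m1.1, by exact_mod_cast m1.2⟩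
    have m2r : 2 * (M' : ℝ) ≤ x' + h ∧ (x' : ℝ) + h < 2 * M' + 2 := ⟨by exact_mod_cast m2.1, by exact_mod_cast m2.2⟩
    have hMB : M' ≤ B * N := by
      have h5 : 2 * (M' : ℤ) ≤ 2 * ((B * N : ℕ) : ℤ) := by
        push_cast
        linarith [m2.1]
      omega
    have hkey := hgood q a M M' hq hqD ha (by rwa [← sub_eq_add_neg]) hMB (by
      have : (N : ℝ) / L ^ (W + 1) ≤ (N / L ^ W) / 4 := by
        rw [pow_succ, ← div_div]
        exact div_le_div_of_nonneg_left (by positivity) (by norm_num) hL4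
      linarith [m1r.1, m1r.2, m2r.1, m2r.2]) (by
      intro n hn
      rw [mem_Ioc] at hn
      omega)
    rw [dens_eq 2 (-h) hg q hq, sing_pow 1 2 (-h) (by norm_num) (neg_ne_zero.2 hne), Int.natAbs_neg] at hkey
    have e1 : adm 2 (-h) q = classes h q := by
      unfold adm classes
      simp only [← sub_eq_add_neg]
    have e2 : cpw 2 (-h) q a M M' = pairs h q a x x' := by
      unfold cpw pairs
      apply card_bij (fun (n : ℕ) _ => (2 * (n : ℤ) - h).toNat)
      · intro n hn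
        rw [mem_filter, mem_Ioc] at hn
        obtain ⟨⟨n1, n2⟩, n3, n4, n5⟩ := hn
        rw [← sub_eq_add_neg] at n5
        rw [mem_filter, mem_Ioc]
        have n6 := n5.one_lt
        refine ⟨⟨by omega, by omega⟩, n5, n, n3, n4, by omega⟩
      · intro n hn m hm hnm
        rw [mem_filter, mem_Ioc] at hn hm
        have n6 := hn.2.2.2.one_lt
        have n7 := hm.2.2.2.one_lt
        omega
      · intro p hp
        rw [mem_filter, mem_Ioc] at hp
        obtain ⟨⟨n1, n2⟩, n3, n, n4, n5, n6⟩ := hp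
        have e3 : (2 * (n : ℤ) + -h).toNat = p := by omega
        refine ⟨n, ?_, by rw [← sub_eq_add_neg] at e3; exact e3⟩
        rw [mem_filter, mem_Ioc, e3]
        exact ⟨⟨by omega, by omega⟩, n4, n5, n3⟩
    rw [e1, e2] at hkey
    obtain ⟨S, hS⟩ : ∃ S, S = 2 * C₂ * (∏ p ∈ h.natAbs.primeFactors.filter (fun p => 2 < p), ((p : ℝ) - 1) / ((p : ℝ) - 2)) / classes h q := ⟨_, rfl⟩
    have hS0 := hmainpos q hq
    rw [← hS] at hkey hS0 ⊢
    obtain ⟨m₁, hm₁⟩ : ∃ m₁, m₁ = S * (((M' : ℝ) - M) / L ^ 2) := ⟨_, rfl⟩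
    obtain ⟨m₂, hm₂⟩ : ∃ m₂, m₂ = S * (((x' : ℝ) - x) / (2 * L ^ 2)) := ⟨_, rfl⟩
    rw [← hm₁] at hkey
    rw [← hm₂]
    have hx0' : 24 / ε ≤ (x' : ℝ) - x := by linarith
    have hm₂0 : 0 < m₂ := by
      rw [hm₂]
      have : 0 < (x' : ℝ) - x := by
        have : 0 < 24 / ε := by positivity
        linarith
      positivity
    have hdiff : |m₁ - m₂| ≤ ε / 3 * m₂ := by
      have e3 : m₁ - m₂ = S / L ^ 2 * (((M' : ℝ) - M) - (x' - x) / 2) := by
        rw [hm₁, hm₂]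
        field_simp
      have e4 : ε / 3 * m₂ = S / L ^ 2 * (ε / 6 * (x' - x)) := by
        rw [hm₂]
        field_simp
        ring
      rw [e3, e4, abs_mul, abs_of_pos (show 0 < S / L ^ 2 by positivity)]
      apply mul_le_mul_of_nonneg_left _ (by positivity)
      have e5 : 4 ≤ ε / 6 * ((x' : ℝ) - x) := by
        have := mul_le_mul_of_nonneg_left hx0' (show 0 ≤ ε / 6 by positivity)
        have e6 : ε / 6 * (24 / ε) = 4 := by field_simp; norm_num
        linarith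
      rw [abs_le]
      constructor <;> linarith [m1r.1, m1r.2, m2r.1, m2r.2]
    have h5 := abs_le.1 hkey
    have h6 := abs_le.1 hdiff
    have h7 : m₁ ≤ 2 * m₂ := by
      have : ε / 3 * m₂ ≤ 1 * m₂ := by
        apply mul_le_mul_of_nonneg_right _ hm₂0.le
        linarith
      linarith [h6.2]
    have h8 : ε / 3 * m₁ ≤ ε / 3 * (2 * m₂) := mul_le_mul_of_nonneg_left h7 (by positivity)
    rw [abs_le]
    constructor <;> linarith [h5.1, h5.2, h6.1, h6.2]
  refine ⟨hA, fun M hM1 hM2 hM3 hM4 => ?_⟩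
  have h5 := hA 1 0 M (2 * M) le_rfl (by rw [Nat.cast_one]; exact one_le_pow₀ hL1) (Nat.coprime_one_right _) (by simp) hM2
    (by push_cast; exact hM3) hM4 (by push_cast; linarith)
  have hS0 := hmainpos 1 one_pos
  obtain ⟨S, hS⟩ : ∃ S, S = 2 * C₂ * (∏ p ∈ h.natAbs.primeFactors.filter (fun p => 2 < p), ((p : ℝ) - 1) / ((p : ℝ) - 2)) / classes h 1 := ⟨_, rfl⟩
  rw [← hS] at h5 hS0
  obtain ⟨m, hm⟩ : ∃ m, m = S * ((((2 * M : ℕ) : ℝ) - M) / (2 * L ^ 2)) := ⟨_, rfl⟩
  rw [← hm] at h5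
  have hM0 : 0 < (M : ℝ) := lt_of_lt_of_le (by positivity) hM1
  have hm0 : 0 < m := by
    rw [hm]
    have e : ((2 * M : ℕ) : ℝ) - M = M := by push_cast; ring
    rw [e]
    positivity
  have h6 : 0 < (pairs h 1 0 M (2 * M) : ℝ) := by
    have := (abs_le.1 h5).1
    have h7 : ε * m < 1 * m := mul_lt_mul_of_pos_right hε1 hm0
    linarith
  have h7 : 0 < pairs h 1 0 M (2 * M) := by exact_mod_cast h6
  unfold pairs at h7
  rw [card_pos] at h7
  obtain ⟨p, hp⟩ := h7
  rw [mem_filter, mem_Ioc] at hp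
  obtain ⟨⟨a1, a2⟩, a3, n, a4, _, a5⟩ := hp
  exact ⟨p, a3, a1.le, a2, n, a4, a5⟩

open Classical in
/-- Let `A`, `B`, `D`, `W`, `U`, `K`, the integer `κ ≠ 0`, `0 < ε < 1` and `δ > 0` be fixed, let `N` be large,
`1 ≤ y ≤ log ^ K N`, and let `c` be an arbitrary integer with `|c| ≤ B N`.

(1) Let `P` be an arbitrary set of primes which are at most `y`, with at least `y ^ (1 / 2 + δ) log N` elements. Then
for all the integers `v ≤ N` composed of primes from `P`, up to a proportion of at most `1 / log ^ U N` of them,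
all odd `h = c + κ v + r` with `|r| ≤ (log N) ^ A` satisfy `Holds`: the number of the primes `p` in `(x, x']` for which
`(p + h) / 2` is a prime of the class `a mod q` is asymptotically the expected number, and all the intervals `[M, 2 M]` contain
primes `p` for which `(p + h) / 2` is prime. (There can be as few as about `N ^ (1 / 2 + δ)` such integers `v`.)

(2) In particular this holds for all the `y`-smooth integers `v ≤ N`, up to a proportion of at most `1 / log ^ U N` of them,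
if `y ≥ log ^ (2 + δ) N`. -/
theorem result (A B D W U K : ℕ) (κ : ℤ) (hκ : κ ≠ 0) (ε : ℝ) (hε : 0 < ε) (hε1 : ε < 1) (δ : ℝ) (hδ : 0 < δ) :
    ∃ N₀ : ℕ, ∀ N, N₀ ≤ N → ∀ y : ℕ, 1 ≤ y → (y : ℝ) ≤ Real.log N ^ K → ∀ c : ℤ, |c| ≤ B * N →
      (∀ P : Finset ℕ, (∀ p ∈ P, p.Prime ∧ p ≤ y) → (y : ℝ) ^ (1 / 2 + δ) * Real.log N ≤ P.card →
        (((composedOf P N).filter fun v : ℕ => ∃ r : ℤ, |(r : ℝ)| ≤ Real.log N ^ A ∧ Odd (c + κ * v + r) ∧
          ¬ Holds ε B D W N (c + κ * v + r)).card : ℝ) ≤ ((composedOf P N).card : ℝ) / Real.log N ^ U) ∧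
      (Real.log N ^ (2 + δ) ≤ y →
        (((smooth y N).filter fun v : ℕ => ∃ r : ℤ, |(r : ℝ)| ≤ Real.log N ^ A ∧ Odd (c + κ * v + r) ∧
          ¬ Holds ε B D W N (c + κ * v + r)).card : ℝ) ≤ ((smooth y N).card : ℝ) / Real.log N ^ U) := by
  obtain ⟨N₀, h0⟩ := Pool.Agent.N469.TL.both δ hδ K U _
    (Pool.Agent.N469.LP.sm_lin (ε / 3) (by positivity) (-κ) (neg_ne_zero.2 hκ) 2 (by norm_num) K B A D (W + 1) U)
  obtain ⟨N₁, h1⟩ := holds_of ε hε hε1 B D W
  refine ⟨N₀ + N₁, fun N hN y hy hy' c hc => ?_⟩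
  refine h0 N (by omega) y hy hy' (fun v : ℕ => ∃ r : ℤ, |(r : ℝ)| ≤ Real.log N ^ A ∧ Odd (c + κ * v + r) ∧
    ¬ Holds ε B D W N (c + κ * v + r)) (fun v => inferInstance) ⟨-c, by rwa [abs_neg], ?_⟩
  rintro v ⟨r, hr, hodd, hnot⟩
  obtain ⟨h, hh⟩ : ∃ h, h = c + κ * (v : ℤ) + r := ⟨_, rfl⟩
  rw [← hh] at hodd hnot
  refine ⟨-r, Pool.Agent.N469.LP.neg_real_abs r _ hr, ?_⟩
  have e : -c + -κ * (v : ℤ) + -r = -h := by rw [hh]; ring
  rw [e]
  have hne : h ≠ 0 := by
    rintro rfl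
    simp at hodd
  have hg : Int.gcd 2 (-h) = 1 := by
    obtain ⟨k, hk⟩ := hodd
    rw [hk, Int.gcd_neg]
    simp
  exact ⟨neg_ne_zero.2 hne, hg, ⟨-h, by ring⟩, fun hgood => hnot (h1 N (by omega) h hodd hgood)⟩

end Pool.Agent.Results.MP_39a890_nt.SmoothShifts
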