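import Mathlib
import Pool.Agent.N957.SQ.Sys4

/-!
# Primes `p` in `[N, 2 N]` with `(p + 1) / 2` prime: the sieved sequential random models

The integers are decided one after the other; the multiples of the primes of a finite set `Q` are never
chosen and the conditional probability of choosing an integer `n + 1` which is not such a multiple,
given the decisions up to `n`, is asymptotic to `∏_{p ∈ Q} (1 - 1 / p)⁻¹ / log n`, almost surely.  No
independence and no rate of convergence are assumed.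

In every such model, almost surely: for ALL large `N` there is a chosen `p` with `(p + 1) / 2` chosen not only in
`[N, 2 N]` but already in `[N, N + c log ^ 3 N]`, for every `c > 2 / C` and for no `c < 2 / C`, and the number of
these `p` in `[N, 2 N]` is asymptotic to `(C / 2) N / log ^ 2 N`.  The same holds for all `p`, `(p - b) / a`.
-/

set_option autoImplicit false

open MeasureTheory Filter Set ProbabilityTheory Polynomial
open scoped Topology

namespace Pool.Agent.Results.MP_39a890_nt.WindowsSievedModels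

variable {Ω : Type}

/-- `A n` is the event that `n` is chosen; adapted to `ℱ`; multiples of the primes in `Q` are not
chosen; the conditional probability of `A (n + 1)` given `ℱ n`, times `log n`, tends almost surely to
`∏_{p ∈ Q} (1 - 1 / p)⁻¹` along the `n` such that no `p ∈ Q` divides `n + 1` -/
def SievedModel [m : MeasurableSpace Ω] (μ : Measure Ω) (ℱ : Filtration ℕ m) (A : ℕ → Set Ω)
    (Q : Finset ℕ) : Prop :=
  (∀ n, MeasurableSet[ℱ n] (A n)) ∧ (∀ n, (∃ p ∈ Q, p ∣ n) → A n = ∅) ∧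
  ∀ᵐ ω ∂μ, Tendsto (fun n : ℕ => (μ[(A (n + 1)).indicator (fun _ => (1 : ℝ)) | ℱ n]) ω * Real.log n)
    (atTop ⊓ 𝓟 {n : ℕ | ∀ p ∈ Q, ¬ p ∣ n + 1}) (𝓝 (∏ p ∈ Q, (1 - 1 / (p : ℝ))⁻¹))

/-- The independent sieved model: independent events, no multiple of a `p ∈ Q` is chosen, all other large `n` are
chosen with probability `∏_{p ∈ Q} (1 - 1 / p)⁻¹ / log n`. -/
def IndependentModel [MeasurableSpace Ω] (μ : Measure Ω) (A : ℕ → Set Ω) (Q : Finset ℕ) : Prop :=
  (∀ n, MeasurableSet (A n)) ∧ iIndepSet A μ ∧ (∀ n, (∃ p ∈ Q, p ∣ n) → A n = ∅) ∧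
  ∀ᶠ n : ℕ in atTop, (∀ p ∈ Q, ¬ p ∣ n) → μ (A n) = ENNReal.ofReal ((∏ p ∈ Q, (1 - 1 / (p : ℝ))⁻¹) / Real.log n)

open Classical in
/-- The random sieve of Hawkins: `2` is chosen, and given the decisions up to `n ≥ 2` the number
`n + 1` is chosen with probability `∏ (1 - 1 / h)`, the product over the chosen `2 ≤ h ≤ n`. -/
def HawkinsSieve [m : MeasurableSpace Ω] (μ : Measure Ω) (ℱ : Filtration ℕ m) (A : ℕ → Set Ω) : Prop :=
  (∀ n, MeasurableSet[ℱ n] (A n)) ∧ A 2 = univ ∧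
  ∀ n, 2 ≤ n → μ[(A (n + 1)).indicator (fun _ => (1 : ℝ)) | ℱ n] =ᵐ[μ]
    fun ω => ∏ h ∈ Finset.Icc 2 n, if ω ∈ A h then 1 - 1 / (h : ℝ) else 1

/-- The members `p` of `S` for which `(p - b) / a` is a member of `S`. -/
def pairs (S : Set ℕ) (a : ℕ) (b : ℤ) : Set ℕ := {p | p ∈ S ∧ ∃ q ∈ S, (p : ℤ) = a * q + b}

/-- The number of `0 ≤ r < p` with `p ∣ r (a r + b)`. -/
noncomputable def omega (a : ℕ) (b : ℤ) (p : ℕ) : ℕ := {r : ℕ | r < p ∧ (p : ℤ) ∣ r * (a * r + b)}.ncard

/-- The constant `C` for the pairs `q`, `a q + b`, with the product restricted to the primes of `Q`. -/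
noncomputable def const (Q : Finset ℕ) (a : ℕ) (b : ℤ) : ℝ :=
  ∏ p ∈ Q, (1 - (omega a b p : ℝ) / p) / (1 - 1 / (p : ℝ)) ^ 2

/-- The laws for a random set `K` of natural numbers: for every `ε > 0` all large `N` have a member of `K` in
`[N, N + (a / C + ε) log ^ 3 N]`, infinitely many `N` have none in `[N, N + (a / C - ε) log ^ 3 N]`, and the number
of members in `[N, 2 N]` is asymptotic to `(C / a) N / log ^ 2 N`. -/
def Laws (K : Set ℕ) (a : ℕ) (C : ℝ) : Prop :=
  0 < C ∧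
  (∀ ε : ℝ, 0 < ε → ∀ᶠ N : ℕ in atTop, ∃ p ∈ K, N ≤ p ∧ (p : ℝ) ≤ N + (a / C + ε) * Real.log N ^ 3) ∧
  (∀ ε : ℝ, 0 < ε → ∃ᶠ N : ℕ in atTop, ∀ p ∈ K, ¬ (N ≤ p ∧ (p : ℝ) ≤ N + (a / C - ε) * Real.log N ^ 3)) ∧
  Tendsto (fun N : ℕ => ({p ∈ K | N ≤ p ∧ p ≤ 2 * N}.ncard : ℝ) * Real.log N ^ 2 / N) atTop (𝓝 (C / a))

open Pool.Agent.N740.HK Pool.Agent.R528.RM Pool.Agent.N285.GP Pool.Agent.N957.SQ.Sy Pool.Agent.N957.SQ.Fin

/-- the linear polynomial -/
noncomputable def lin (a : ℕ) (b : ℤ) : ℤ[X] := C (a : ℤ) * X + C b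

open Classical in
/-- the system `X`, `a X + b` -/
noncomputable def sys (a : ℕ) (b : ℤ) : Finset ℤ[X] := {X, lin a b}

lemma lin_eval (a : ℕ) (b n : ℤ) : (lin a b).eval n = a * n + b := by
  unfold lin
  simp

lemma lin_deg {a : ℕ} (ha : 2 ≤ a) (b : ℤ) : (lin a b).natDegree = 1 :=
  natDegree_linear (by exact_mod_cast (by omega : a ≠ 0))

lemma lin_lead {a : ℕ} (ha : 2 ≤ a) (b : ℤ) : (lin a b).leadingCoeff = a :=
  leadingCoeff_linear (by exact_mod_cast (by omega : a ≠ 0))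

lemma lin_ne {a : ℕ} (ha : 2 ≤ a) (b : ℤ) : (X : ℤ[X]) ≠ lin a b := by
  intro h
  have h1 := lin_lead ha b
  rw [← h, leadingCoeff_X] at h1
  have : a = 1 := by exact_mod_cast h1.symm
  omega

lemma sys_card {a : ℕ} (ha : 2 ≤ a) (b : ℤ) : (sys a b).card = 2 := by
  classical
  unfold sys
  rw [Finset.card_pair (lin_ne ha b)]

lemma mem_sys {a : ℕ} {b : ℤ} {f : ℤ[X]} : f ∈ sys a b ↔ f = X ∨ f = lin a b := by
  classical
  unfold sys
  simp

lemma sys_sep {a : ℕ} (ha : 2 ≤ a) (b : ℤ) : Sep (sys a b) := by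
  have h0 : (0 : ℤ) < a := by exact_mod_cast (by omega : 0 < a)
  have h1 : ((a : ℕ) : ℤ) ≠ 1 := by exact_mod_cast (by omega : a ≠ 1)
  constructor
  · intro f hf
    rcases mem_sys.1 hf with rfl | rfl
    · rw [natDegree_X, leadingCoeff_X]
      exact ⟨one_pos, one_pos⟩
    · rw [lin_deg ha, lin_lead ha]
      exact ⟨one_pos, h0⟩
  · intro f hf g hg _ h
    rcases mem_sys.1 hf with rfl | rfl
    · rcases mem_sys.1 hg with rfl | rfl
      · rfl
      · rw [leadingCoeff_X, lin_lead ha] at h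
        exact absurd h.symm h1
    · rcases mem_sys.1 hg with rfl | rfl
      · rw [leadingCoeff_X, lin_lead ha] at h
        exact absurd h h1
      · rfl

lemma sys_prod {a : ℕ} (ha : 2 ≤ a) (b r : ℤ) : ∏ f ∈ sys a b, f.eval r = r * (a * r + b) := by
  classical
  unfold sys
  rw [Finset.prod_pair (lin_ne ha b), lin_eval, eval_X]

lemma sys_omega {a : ℕ} (ha : 2 ≤ a) (b : ℤ) (p : ℕ) : omegaF (sys a b) p = omega a b p := by
  unfold omegaF omega
  simp_rw [sys_prod ha]

lemma sys_const (Q : Finset ℕ) {a : ℕ} (ha : 2 ≤ a) (b : ℤ) : BC Q (sys a b) = const Q a b := by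
  unfold BC const
  have h1 : ∏ f ∈ sys a b, ((f.natDegree : ℝ))⁻¹ = 1 := by
    refine Finset.prod_eq_one fun f hf => ?_
    rcases mem_sys.1 hf with rfl | rfl
    · rw [natDegree_X]
      norm_num
    · rw [lin_deg ha]
      norm_num
  rw [h1, mul_one, sys_card ha]
  refine Finset.prod_congr rfl fun p _ => ?_
  rw [sys_omega ha]

/-- the `q` with `q` and `a q + b` in `S` -/
lemma mem_args {a : ℕ} {b : ℤ} {S : Set ℕ} {q : ℕ} :
    q ∈ argsP S (sys a b) ↔ q ∈ S ∧ ∃ p ∈ S, (p : ℤ) = a * q + b := by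
  unfold argsP
  simp only [mem_ofPred_eq]
  constructor
  · intro h
    refine ⟨?_, ?_⟩
    · obtain ⟨c, hc, h1⟩ := h X (mem_sys.2 (Or.inl rfl))
      rw [eval_X] at h1
      have : c = q := by exact_mod_cast h1
      rwa [this] at hc
    · have := h (lin a b) (mem_sys.2 (Or.inr rfl))
      rwa [lin_eval] at this
  · rintro ⟨h1, h2⟩ f hf
    rcases mem_sys.1 hf with rfl | rfl
    · exact ⟨q, h1, by rw [eval_X]⟩
    · rw [lin_eval]
      exact h2

lemma mem_pairs {a : ℕ} {b : ℤ} {S : Set ℕ} {p : ℕ} :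
    p ∈ pairs S a b ↔ ∃ q ∈ argsP S (sys a b), (p : ℤ) = a * q + b := by
  unfold pairs
  simp only [mem_ofPred_eq]
  constructor
  · rintro ⟨h1, q, hq, h2⟩
    exact ⟨q, mem_args.2 ⟨hq, p, h1, h2⟩, h2⟩
  · rintro ⟨q, hq, h2⟩
    obtain ⟨h3, p', h4, h5⟩ := mem_args.1 hq
    have : p' = p := by
      have : (p' : ℤ) = p := by rw [h5, h2]
      exact_mod_cast this
    exact ⟨this ▸ h4, q, h3, h2⟩

lemma log_tend : Tendsto (fun N : ℕ => Real.log (N : ℝ)) atTop atTop :=
  Real.tendsto_log_atTop.comp tendsto_natCast_atTop_atTop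

/-- the logarithm of a sequence of linear growth -/
lemma log_ratio {u : ℕ → ℕ} {c : ℝ} (hc : 0 < c) (hu : Tendsto (fun N : ℕ => (u N : ℝ) / N) atTop (𝓝 c)) :
    Tendsto (fun N : ℕ => Real.log (u N) / Real.log N) atTop (𝓝 1) := by
  have h1 : Tendsto (fun N : ℕ => 1 + Real.log ((u N : ℝ) / N) / Real.log N) atTop (𝓝 (1 + 0)) :=
    tendsto_const_nhds.add ((hu.log hc.ne').div_atTop log_tend)
  rw [add_zero] at h1
  refine h1.congr' ?_
  filter_upwards [hu.eventually (lt_mem_nhds hc), eventually_ge_atTop 2] with N hN h2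
  have h3 : (0 : ℝ) < N := by exact_mod_cast (by omega : 0 < N)
  have h4 : (0 : ℝ) < u N := by
    rcases (div_pos_iff.1 hN) with h | h
    · exact h.1
    · linarith [h.2]
  have h5 : 0 < Real.log N := Real.log_pos (by exact_mod_cast (by omega : 1 < N))
  rw [Real.log_div h4.ne' h3.ne']
  field_simp
  ring

lemma tend_of_ratio {u : ℕ → ℕ} {c : ℝ} (hc : 0 < c) (hu : Tendsto (fun N : ℕ => (u N : ℝ) / N) atTop (𝓝 c)) :
    Tendsto u atTop atTop := by
  have h1 : Tendsto (fun N : ℕ => (u N : ℝ) / N * N) atTop atTop :=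
    hu.pos_mul_atTop hc tendsto_natCast_atTop_atTop
  have h2 : Tendsto (fun N : ℕ => (u N : ℝ)) atTop atTop := by
    refine h1.congr' ?_
    filter_upwards [eventually_ge_atTop 1] with N hN
    have h3 : (N : ℝ) ≠ 0 := by exact_mod_cast (by omega : N ≠ 0)
    field_simp
  exact tendsto_natCast_atTop_iff.1 h2

/-- a counting law along a sequence of linear growth -/
lemma count_along {g : ℕ → ℕ} {u : ℕ → ℕ} {c C : ℝ} (hc : 0 < c)
    (hg : Tendsto (fun x : ℕ => (g x : ℝ) * Real.log x ^ 2 / x) atTop (𝓝 C))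
    (hu : Tendsto (fun N : ℕ => (u N : ℝ) / N) atTop (𝓝 c)) :
    Tendsto (fun N : ℕ => (g (u N) : ℝ) * Real.log N ^ 2 / N) atTop (𝓝 (C * c)) := by
  have h1 := hg.comp (tend_of_ratio hc hu)
  have h2 := ((log_ratio hc hu).inv₀ one_ne_zero).pow 2
  have h3 := (h1.mul hu).mul h2
  rw [inv_one, one_pow, mul_one] at h3
  refine h3.congr' ?_
  filter_upwards [hu.eventually (lt_mem_nhds hc), eventually_ge_atTop 2,
    (tend_of_ratio hc hu).eventually_ge_atTop 2] with N hN hN2 hu2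
  have h5 : (0 : ℝ) < N := by exact_mod_cast (by omega : 0 < N)
  have h6 : (0 : ℝ) < u N := by exact_mod_cast (by omega : 0 < u N)
  have h7 : 0 < Real.log N := Real.log_pos (by exact_mod_cast (by omega : 1 < N))
  have h8 : 0 < Real.log (u N) := Real.log_pos (by exact_mod_cast (by omega : 1 < u N))
  simp only [Function.comp]
  rw [inv_div, div_pow]
  field_simp

/-- the quotient with remainder: a sequence of linear growth -/
lemma ratio_of_close {u : ℕ → ℕ} {c D : ℝ} (h : ∀ᶠ N : ℕ in atTop, |(u N : ℝ) - c * N| ≤ D) :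
    Tendsto (fun N : ℕ => (u N : ℝ) / N) atTop (𝓝 c) := by
  have h1 : Tendsto (fun N : ℕ => D / (N : ℝ)) atTop (𝓝 0) := tendsto_const_nhds.div_atTop tendsto_natCast_atTop_atTop
  rw [tendsto_iff_dist_tendsto_zero]
  refine squeeze_zero' (Eventually.of_forall fun _ => dist_nonneg) ?_ h1
  filter_upwards [h, eventually_ge_atTop 1] with N hN h2
  have h3 : (0 : ℝ) < N := by exact_mod_cast h2
  rw [Real.dist_eq]
  have h4 : (u N : ℝ) / N - c = ((u N : ℝ) - c * N) / N := by field_simp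
  rw [h4, abs_div, abs_of_pos h3]
  gcongr

/-- the laws for the `p` from the laws for the `q` -/
lemma transfer {S : Set ℕ} {a : ℕ} (ha : 2 ≤ a) (b : ℤ) {κ : ℝ} (hκ : 0 < κ)
    (h1 : Tendsto (fun x : ℕ => (polyCount S (sys a b) x : ℝ) * Real.log x ^ 2 / x) atTop (𝓝 κ))
    (h2 : (argsP S (sys a b)).Infinite)
    (h3 : ∀ ε : ℝ, 0 < ε → ∀ᶠ x : ℕ in atTop, ∃ k : ℕ, x < k ∧
        (k : ℝ) ≤ x + (κ⁻¹ + ε) * Real.log x ^ 3 ∧ k ∈ argsP S (sys a b))
    (h4 : ∀ ε : ℝ, 0 < ε → ∃ᶠ j : ℕ in atTop, (κ⁻¹ - ε) * Real.log (pn (argsP S (sys a b)) j) ^ 3 ≤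
        (pn (argsP S (sys a b)) (j + 1) : ℝ) - pn (argsP S (sys a b)) j) :
    Laws (pairs S a b) a κ := by
  have ha0 : (0 : ℤ) < a := by exact_mod_cast (by omega : 0 < a)
  have haR : (0 : ℝ) < a := by exact_mod_cast (by omega : 0 < a)
  have haR2 : (2 : ℝ) ≤ a := by exact_mod_cast ha
  set K := argsP S (sys a b) with hK
  refine ⟨hκ, ?_, ?_, ?_⟩
  · -- all windows contain a member
    intro ε hε
    have hu : Tendsto (fun N : ℕ => ((((N : ℤ) - b) / a).toNat : ℝ) / N) atTop (𝓝 ((a : ℝ)⁻¹)) := by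
      apply ratio_of_close (D := |(b : ℝ)| + 2)
      filter_upwards [eventually_ge_atTop (b.natAbs)] with N hN
      have e1 : 0 ≤ ((N : ℤ) - b) / a := Int.ediv_nonneg (by omega) ha0.le
      have e2 : ((((N : ℤ) - b) / a).toNat : ℤ) = ((N : ℤ) - b) / a := Int.toNat_of_nonneg e1
      have e3 := Int.emod_add_mul_ediv ((N : ℤ) - b) a
      have e4 := Int.emod_nonneg ((N : ℤ) - b) ha0.ne'
      have e5 := Int.emod_lt_of_pos ((N : ℤ) - b) ha0
      rw [← e2] at e3
      set w := (((N : ℤ) - b) / a).toNat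
      set r := ((N : ℤ) - b) % a
      have e6 : (r : ℝ) + a * w = N - b := by exact_mod_cast e3
      have e7 : (0 : ℝ) ≤ r := by exact_mod_cast e4
      have e8 : (r : ℝ) < a := by exact_mod_cast e5
      have e9 : (w : ℝ) - (a : ℝ)⁻¹ * N = -(b + r) / a := by
        field_simp
        linarith
      rw [e9, abs_div, abs_of_pos haR, div_le_iff₀ haR, abs_neg]
      calc |(b : ℝ) + r| ≤ |(b : ℝ)| + |(r : ℝ)| := abs_add_le _ _
        _ ≤ |(b : ℝ)| + a := by rw [abs_of_nonneg e7]; linarith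
        _ ≤ (|(b : ℝ)| + 2) * a := by nlinarith [abs_nonneg (b : ℝ)]
    have hut := tend_of_ratio (inv_pos.2 haR) hu
    filter_upwards [hut.eventually (h3 (ε / a) (by positivity)), eventually_ge_atTop (b.natAbs + 2)] with N hN hNb
    obtain ⟨q, hq1, hq2, hq3⟩ := hN
    have e1 : 0 ≤ ((N : ℤ) - b) / a := Int.ediv_nonneg (by omega) ha0.le
    have e2 : ((((N : ℤ) - b) / a).toNat : ℤ) = ((N : ℤ) - b) / a := Int.toNat_of_nonneg e1
    have e3 := Int.emod_add_mul_ediv ((N : ℤ) - b) a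
    have e4 := Int.emod_nonneg ((N : ℤ) - b) ha0.ne'
    have e5 := Int.emod_lt_of_pos ((N : ℤ) - b) ha0
    rw [← e2] at e3
    set w := (((N : ℤ) - b) / a).toNat with hw
    set r := ((N : ℤ) - b) % a
    obtain ⟨_, p, hp1, hp2⟩ := mem_args.1 hq3
    have f1 : (w : ℤ) + 1 ≤ q := by exact_mod_cast hq1
    have f2 : (N : ℤ) < p := by
      rw [hp2]
      nlinarith
    refine ⟨p, mem_pairs.2 ⟨q, hq3, hp2⟩, by omega, ?_⟩
    have f3 : (p : ℝ) = a * q + b := by exact_mod_cast hp2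
    have f4 : (r : ℝ) + a * w = N - b := by exact_mod_cast e3
    have f5 : (0 : ℝ) ≤ r := by exact_mod_cast e4
    have f6 : w ≤ N := by
      have g1 : (2 : ℤ) * w ≤ a * w := mul_le_mul_of_nonneg_right (by exact_mod_cast ha) (Int.natCast_nonneg w)
      have : (w : ℤ) ≤ N := by omega
      exact_mod_cast this
    have f7 : Real.log w ^ 3 ≤ Real.log N ^ 3 := by
      apply pow_le_pow_left₀ (Real.log_natCast_nonneg _)
      rcases Nat.eq_zero_or_pos w with h | h
      · rw [h, Nat.cast_zero, Real.log_zero]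
        exact Real.log_natCast_nonneg _
      · exact Real.log_le_log (by exact_mod_cast h) (by exact_mod_cast f6)
    have f8 : (a : ℝ) * q ≤ a * w + a * ((κ⁻¹ + ε / a) * Real.log w ^ 3) := by
      rw [← mul_add]
      exact mul_le_mul_of_nonneg_left hq2 haR.le
    have f9 : (a : ℝ) * ((κ⁻¹ + ε / a) * Real.log w ^ 3) = (a / κ + ε) * Real.log w ^ 3 := by
      field_simp
    have f10 : (a / κ + ε) * Real.log w ^ 3 ≤ (a / κ + ε) * Real.log N ^ 3 :=
      mul_le_mul_of_nonneg_left f7 (by positivity)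
    rw [f3]
    linarith
  · -- infinitely many windows without a member
    intro ε₀ hε₀
    -- a smaller `ε` is stronger
    obtain ⟨ε, hε, hεε, hεκ⟩ : ∃ ε : ℝ, 0 < ε ∧ ε ≤ ε₀ ∧ ε < a / κ :=
      ⟨min ε₀ (a / κ / 2), lt_min hε₀ (by positivity), min_le_left _ _,
        (min_le_right _ _).trans_lt (half_lt_self (by positivity))⟩
    have hpt : Tendsto (fun j : ℕ => pn K j) atTop atTop := tendsto_nth h2
    -- the sequence of the starting points
    set u : ℕ → ℕ := fun q => ((a : ℤ) * q + b + 1).toNat with hu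
    have hur : Tendsto (fun q : ℕ => (u q : ℝ) / q) atTop (𝓝 (a : ℝ)) := by
      apply ratio_of_close (D := |(b : ℝ)| + 1)
      filter_upwards [eventually_ge_atTop (b.natAbs)] with q hq
      have e0 : (q : ℤ) ≤ a * q := by nlinarith [Int.natCast_nonneg q]
      have e1 : ((u q : ℕ) : ℤ) = a * q + b + 1 := Int.toNat_of_nonneg (by omega)
      have e2 : (u q : ℝ) = a * q + b + 1 := by exact_mod_cast e1
      rw [e2]
      have e3 : (a : ℝ) * q + b + 1 - a * q = b + 1 := by ring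
      rw [e3]
      calc |(b : ℝ) + 1| ≤ |(b : ℝ)| + |(1 : ℝ)| := abs_add_le _ _
        _ = |(b : ℝ)| + 1 := by rw [abs_one]
    have hL := log_ratio haR hur
    have hL3 : Tendsto (fun q : ℕ => (a / κ - ε) * (Real.log (u q) / Real.log q) ^ 3 + 1 / Real.log q ^ 3)
        atTop (𝓝 ((a / κ - ε) * 1 ^ 3 + 0)) := by
      refine ((hL.pow 3).const_mul _).add ?_
      have : Tendsto (fun q : ℕ => Real.log (q : ℝ) ^ 3) atTop atTop :=
        (tendsto_pow_atTop (by norm_num)).comp log_tend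
      exact tendsto_const_nhds.div_atTop this
    rw [one_pow, mul_one, add_zero] at hL3
    have hL4 := hL3.eventually (gt_mem_nhds (show a / κ - ε < a / κ - ε / 2 by linarith))
    have hf := (h4 (ε / (2 * a)) (by positivity)).and_eventually
      (hpt.eventually (hL4.and ((eventually_ge_atTop (b.natAbs + 3)).and
        ((tend_of_ratio haR hur).eventually_ge_atTop 2))))
    rw [Filter.frequently_atTop] at hf ⊢
    intro N₀
    obtain ⟨j₀, hj₀⟩ := (eventually_atTop.1 (((tend_of_ratio haR hur).comp hpt).eventually_ge_atTop N₀))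
    obtain ⟨j, hj, g1, g2, g3, g4⟩ := hf j₀
    refine ⟨u (pn K j), hj₀ j hj, ?_⟩
    rintro p hp ⟨k1, k2⟩
    obtain ⟨q, hq, hpq⟩ := mem_pairs.1 hp
    set q₀ := pn K j with hq₀
    have e0 : (q₀ : ℤ) ≤ a * q₀ := by nlinarith [Int.natCast_nonneg q₀]
    have e1 : ((u q₀ : ℕ) : ℤ) = a * q₀ + b + 1 := Int.toNat_of_nonneg (by omega)
    have e2 : (u q₀ : ℝ) = a * q₀ + b + 1 := by exact_mod_cast e1
    -- the next argument
    have e3 : q₀ < q := by
      have : (a : ℤ) * q₀ + b + 1 ≤ a * q + b := by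
        rw [← e1, ← hpq]
        exact_mod_cast k1
      have : (a : ℤ) * q₀ < a * q := by omega
      have := lt_of_mul_lt_mul_left this ha0.le
      exact_mod_cast this
    obtain ⟨i, rfl⟩ := exists_nth hq
    have e4 : j < i := (nth_mono h2).lt_iff_lt.1 e3
    have e5 : pn K (j + 1) ≤ pn K i := (nth_mono h2).monotone e4
    have e5' : (pn K (j + 1) : ℝ) ≤ pn K i := by exact_mod_cast e5
    have e6 : (p : ℝ) = a * (pn K i : ℝ) + b := by exact_mod_cast hpq
    have hlog : 0 < Real.log (q₀ : ℝ) := Real.log_pos (by exact_mod_cast (by omega : 1 < q₀))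
    have hlogu : 0 < Real.log (u q₀ : ℝ) := Real.log_pos (by exact_mod_cast (by omega : 1 < u q₀))
    -- the numerical comparison
    have e7 : (a / κ - ε) * Real.log (u q₀) ^ 3 + 1 < (a / κ - ε / 2) * Real.log q₀ ^ 3 := by
      have e8 := mul_lt_mul_of_pos_right g2 (pow_pos hlog 3)
      have e9 : ((a / κ - ε) * (Real.log (u q₀) / Real.log q₀) ^ 3 + 1 / Real.log q₀ ^ 3) * Real.log q₀ ^ 3 =
          (a / κ - ε) * Real.log (u q₀) ^ 3 + 1 := by
        rw [div_pow]
        field_simp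
      rwa [e9] at e8
    have e10 : (a : ℝ) * ((κ⁻¹ - ε / (2 * a)) * Real.log q₀ ^ 3) = (a / κ - ε / 2) * Real.log q₀ ^ 3 := by
      field_simp
    have e11 := mul_le_mul_of_nonneg_left g1 haR.le
    rw [e10] at e11
    have e12 : (a / κ - ε₀) * Real.log (u q₀) ^ 3 ≤ (a / κ - ε) * Real.log (u q₀) ^ 3 :=
      mul_le_mul_of_nonneg_right (by linarith) (pow_pos hlogu 3).le
    have e13 : (a : ℝ) * (pn K (j + 1) : ℝ) ≤ a * (pn K i : ℝ) := mul_le_mul_of_nonneg_left e5' haR.le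
    rw [e6, e2] at k2
    rw [e2] at e7 e12
    nlinarith
  · -- the number of members in `[N, 2 N]`
    set u : ℕ → ℕ := fun N => (((N : ℤ) - b + a - 1) / a).toNat with hu
    set v : ℕ → ℕ := fun N => ((2 * (N : ℤ) - b) / a + 1).toNat with hv
    have hur : Tendsto (fun N : ℕ => (u N : ℝ) / N) atTop (𝓝 ((a : ℝ)⁻¹)) := by
      apply ratio_of_close (D := |(b : ℝ)| + 3)
      filter_upwards [eventually_ge_atTop (b.natAbs + 1)] with N hN
      have e1 : 0 ≤ ((N : ℤ) - b + a - 1) / a := Int.ediv_nonneg (by omega) ha0.le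
      have e2 : ((u N : ℕ) : ℤ) = ((N : ℤ) - b + a - 1) / a := Int.toNat_of_nonneg e1
      have e3 := Int.emod_add_mul_ediv ((N : ℤ) - b + a - 1) a
      have e4 := Int.emod_nonneg ((N : ℤ) - b + a - 1) ha0.ne'
      have e5 := Int.emod_lt_of_pos ((N : ℤ) - b + a - 1) ha0
      rw [← e2] at e3
      set r := ((N : ℤ) - b + a - 1) % a
      have e6 : (r : ℝ) + a * (u N : ℝ) = N - b + a - 1 := by exact_mod_cast e3
      have e7 : (0 : ℝ) ≤ r := by exact_mod_cast e4
      have e8 : (r : ℝ) < a := by exact_mod_cast e5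
      have e9 : (u N : ℝ) - (a : ℝ)⁻¹ * N = (-b + (a - 1 - r)) / a := by
        field_simp
        linarith
      rw [e9, abs_div, abs_of_pos haR, div_le_iff₀ haR]
      calc |-(b : ℝ) + (a - 1 - r)| ≤ |-(b : ℝ)| + |(a : ℝ) - 1 - r| := abs_add_le _ _
        _ ≤ |(b : ℝ)| + a := by
          rw [abs_neg]
          have : |(a : ℝ) - 1 - r| ≤ a := abs_le.2 ⟨by linarith, by linarith⟩
          linarith
        _ ≤ (|(b : ℝ)| + 3) * a := by nlinarith [abs_nonneg (b : ℝ)]
    have hvr : Tendsto (fun N : ℕ => (v N : ℝ) / N) atTop (𝓝 (2 * (a : ℝ)⁻¹)) := by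
      apply ratio_of_close (D := |(b : ℝ)| + 3)
      filter_upwards [eventually_ge_atTop (b.natAbs + 1)] with N hN
      have e1 : 0 ≤ (2 * (N : ℤ) - b) / a := Int.ediv_nonneg (by omega) ha0.le
      have e2 : ((v N : ℕ) : ℤ) = (2 * (N : ℤ) - b) / a + 1 := Int.toNat_of_nonneg (by omega)
      have e2' : (2 * (N : ℤ) - b) / a = (v N : ℤ) - 1 := by omega
      have e3 := Int.emod_add_mul_ediv (2 * (N : ℤ) - b) a
      have e4 := Int.emod_nonneg (2 * (N : ℤ) - b) ha0.ne'
      have e5 := Int.emod_lt_of_pos (2 * (N : ℤ) - b) ha0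
      rw [e2'] at e3
      set r := (2 * (N : ℤ) - b) % a
      have e6 : (r : ℝ) + a * ((v N : ℝ) - 1) = 2 * N - b := by exact_mod_cast e3
      have e7 : (0 : ℝ) ≤ r := by exact_mod_cast e4
      have e8 : (r : ℝ) < a := by exact_mod_cast e5
      have e9 : (v N : ℝ) - 2 * (a : ℝ)⁻¹ * N = (-b + (a - r)) / a := by
        field_simp
        linarith
      rw [e9, abs_div, abs_of_pos haR, div_le_iff₀ haR]
      calc |-(b : ℝ) + (a - r)| ≤ |-(b : ℝ)| + |(a : ℝ) - r| := abs_add_le _ _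
        _ ≤ |(b : ℝ)| + a := by
          rw [abs_neg]
          have : |(a : ℝ) - r| ≤ a := abs_le.2 ⟨by linarith, by linarith⟩
          linarith
        _ ≤ (|(b : ℝ)| + 3) * a := by nlinarith [abs_nonneg (b : ℝ)]
    have k1 := count_along (inv_pos.2 haR) h1 hur
    have k2 := count_along (by positivity) h1 hvr
    have k3 := k2.sub k1
    have k4 : κ * (2 * (a : ℝ)⁻¹) - κ * (a : ℝ)⁻¹ = κ / a := by
      field_simp
      ring
    rw [k4] at k3
    refine k3.congr' ?_
    filter_upwards [eventually_ge_atTop (b.natAbs + 1)] with N hN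
    have e1 : 0 ≤ ((N : ℤ) - b + a - 1) / a := Int.ediv_nonneg (by omega) ha0.le
    have e2 : ((u N : ℕ) : ℤ) = ((N : ℤ) - b + a - 1) / a := Int.toNat_of_nonneg e1
    have e3 := Int.emod_add_mul_ediv ((N : ℤ) - b + a - 1) a
    have e4 := Int.emod_nonneg ((N : ℤ) - b + a - 1) ha0.ne'
    have e5 := Int.emod_lt_of_pos ((N : ℤ) - b + a - 1) ha0
    rw [← e2] at e3
    have e1' : 0 ≤ (2 * (N : ℤ) - b) / a := Int.ediv_nonneg (by omega) ha0.le
    have e2' : ((v N : ℕ) : ℤ) = (2 * (N : ℤ) - b) / a + 1 := Int.toNat_of_nonneg (by omega)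
    have e2'' : (2 * (N : ℤ) - b) / a = (v N : ℤ) - 1 := by omega
    have e3' := Int.emod_add_mul_ediv (2 * (N : ℤ) - b) a
    have e4' := Int.emod_nonneg (2 * (N : ℤ) - b) ha0.ne'
    have e5' := Int.emod_lt_of_pos (2 * (N : ℤ) - b) ha0
    rw [e2''] at e3'
    set r := ((N : ℤ) - b + a - 1) % a
    set r' := (2 * (N : ℤ) - b) % a
    have huv : u N ≤ v N := by
      have : (a : ℤ) * u N < a * (v N + 1) := by nlinarith
      have := lt_of_mul_lt_mul_left this ha0.le
      have : u N < v N + 1 := by exact_mod_cast this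
      omega
    -- membership
    have hmem : ∀ q : ℕ, ((N : ℤ) ≤ a * q + b ∧ (a : ℤ) * q + b ≤ 2 * N) ↔ (u N ≤ q ∧ q < v N) := by
      intro q
      constructor
      · rintro ⟨m1, m2⟩
        constructor
        · by_contra hcon
          have : (q : ℤ) + 1 ≤ u N := by exact_mod_cast (by omega : q + 1 ≤ u N)
          nlinarith
        · by_contra hcon
          have : (v N : ℤ) ≤ q := by exact_mod_cast (by omega : v N ≤ q)
          nlinarith
      · rintro ⟨m1, m2⟩
        have m1' : (u N : ℤ) ≤ q := by exact_mod_cast m1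
        have m2' : (q : ℤ) + 1 ≤ v N := by exact_mod_cast m2
        constructor
        · nlinarith
        · nlinarith
    -- the count as a difference
    have hfin : ∀ x : ℕ, {n : ℕ | n < x ∧ n ∈ K}.Finite := fun x =>
      (Set.finite_lt_nat x).subset fun n hn => hn.1
    have hcount : ∀ x : ℕ, polyCount S (sys a b) x = {n : ℕ | n < x ∧ n ∈ K}.ncard := fun x => rfl
    have hsub : {n : ℕ | n < u N ∧ n ∈ K} ⊆ {n : ℕ | n < v N ∧ n ∈ K} := fun n hn => ⟨by
      have := hn.1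
      omega, hn.2⟩
    have hdiff : {n : ℕ | n < v N ∧ n ∈ K} \ {n : ℕ | n < u N ∧ n ∈ K} = {n : ℕ | (u N ≤ n ∧ n < v N) ∧ n ∈ K} := by
      ext n
      simp only [Set.mem_sdiff, mem_ofPred_eq]
      constructor
      · rintro ⟨⟨m1, m2⟩, m3⟩
        refine ⟨⟨?_, m1⟩, m2⟩
        by_contra hcon
        exact m3 ⟨by omega, m2⟩
      · rintro ⟨⟨m1, m2⟩, m3⟩
        exact ⟨⟨m2, m3⟩, fun h => by
          have := h.1
          omega⟩
    have himg : {p ∈ pairs S a b | N ≤ p ∧ p ≤ 2 * N} =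
        (fun n : ℕ => ((a : ℤ) * n + b).toNat) '' {n : ℕ | (u N ≤ n ∧ n < v N) ∧ n ∈ K} := by
      ext p
      simp only [mem_ofPred_eq, mem_image]
      constructor
      · rintro ⟨m1, m2, m3⟩
        obtain ⟨q, hq, hpq⟩ := mem_pairs.1 m1
        refine ⟨q, ⟨(hmem q).1 ⟨?_, ?_⟩, hq⟩, ?_⟩
        · rw [← hpq]
          exact_mod_cast m2
        · rw [← hpq]
          exact_mod_cast m3
        · rw [← hpq]
          exact Int.toNat_natCast p
      · rintro ⟨q, ⟨hq1, hq2⟩, rfl⟩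
        obtain ⟨m1, m2⟩ := (hmem q).2 hq1
        have m3 : ((((a : ℤ) * q + b).toNat : ℕ) : ℤ) = a * q + b := Int.toNat_of_nonneg (by omega)
        exact ⟨mem_pairs.2 ⟨q, hq2, m3⟩, by omega, by omega⟩
    have hinj : Set.InjOn (fun n : ℕ => ((a : ℤ) * n + b).toNat) {n : ℕ | (u N ≤ n ∧ n < v N) ∧ n ∈ K} := by
      intro q hq q' hq' h
      simp only at h
      obtain ⟨m1, m2⟩ := (hmem q).2 hq.1
      obtain ⟨m1', m2'⟩ := (hmem q').2 hq'.1
      have m5 : (a : ℤ) * q = a * q' := by omega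
      have m6 := mul_left_cancel₀ ha0.ne' m5
      exact_mod_cast m6
    have hcard : {p ∈ pairs S a b | N ≤ p ∧ p ≤ 2 * N}.ncard =
        polyCount S (sys a b) (v N) - polyCount S (sys a b) (u N) := by
      rw [himg, hinj.ncard_image, ← hdiff, Set.ncard_sdiff hsub (hfin _), hcount, hcount]
    have hle : polyCount S (sys a b) (u N) ≤ polyCount S (sys a b) (v N) := by
      rw [hcount, hcount]
      exact Set.ncard_le_ncard hsub (hfin _)
    rw [hcard, Nat.cast_sub hle]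
    ring

end Pool.Agent.Results.MP_39a890_nt.WindowsSievedModels

open Pool.Agent.Results.MP_39a890_nt.WindowsSievedModels

/-- The independent sieved model is a sieved model for some filtration, and the random sieve of Hawkins is one with
`Q = ∅`.  In every sieved model, almost surely: for all `a ≥ 2` and `b` such that no `p ∈ Q` divides all
`r (a r + b)`, the laws hold for the chosen `p` with `(p - b) / a` chosen, with `C` the constant `const Q a b`: for
all large `N` there is one in `[N, N + (a / C + ε) log ^ 3 N]`, this is optimal, and the number of them in `[N, 2 N]`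
is asymptotic to `(C / a) N / log ^ 2 N`.  In particular this holds for `a = 2`, `b = -1`: the chosen `p`
with `(p + 1) / 2` chosen. -/
theorem Pool.Agent.Results.MP_39a890_nt.WindowsSievedModels.result
    {Ω : Type} [m : MeasurableSpace Ω] (μ : Measure Ω) [IsProbabilityMeasure μ] (A : ℕ → Set Ω)
    (Q : Finset ℕ) (hQ : ∀ p ∈ Q, p.Prime) :
    (IndependentModel μ A Q → ∃ ℱ : Filtration ℕ m, SievedModel μ ℱ A Q) ∧
    ∀ ℱ : Filtration ℕ m,
    (HawkinsSieve μ ℱ A → SievedModel μ ℱ A ∅) ∧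
    (SievedModel μ ℱ A Q → ∀ᵐ ω ∂μ,
      Laws (pairs {q | ω ∈ A q} 2 (-1)) 2 (const Q 2 (-1)) ∧
      ∀ a : ℕ, 2 ≤ a → ∀ b : ℤ, (∀ p ∈ Q, ∃ r : ℤ, ¬ (p : ℤ) ∣ r * (a * r + b)) →
        Laws (pairs {q | ω ∈ A q} a b) a (const Q a b)) := by
  classical
  refine ⟨?_, fun ℱ => ⟨?_, ?_⟩⟩
  · rintro ⟨hA, hi, hz, hp⟩
    exact ⟨Pool.Agent.N740.HK.gen hA, Pool.Agent.N740.HK.gen_meas hA, hz,
      Pool.Agent.N957.SQ.Fin.indep_dens hA hi Q hQ hp⟩
  · rintro ⟨h1, h2, h3⟩
    have hs : Pool.Agent.N740.HK.HS μ ℱ A := ⟨h1, h2, fun n hn => by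
      filter_upwards [h3 n hn] with ω hω
      rw [← Pool.Agent.N957.SQ.Fin.prod_inv]
      exact hω⟩
    refine ⟨h1, fun n hn => ?_, ?_⟩
    · obtain ⟨p, hp, _⟩ := hn
      exact absurd hp (Finset.notMem_empty p)
    · filter_upwards [Pool.Agent.N740.HK.hawk_dens hs] with ω hω
      rw [Finset.prod_empty]
      exact hω.mono_left inf_le_left
  · rintro ⟨hA, hcop, hd⟩
    filter_upwards [Pool.Agent.N957.SQ.Fin.laws (μ := μ) hA Q hQ hcop hd] with ω g1
    have hgen : ∀ a : ℕ, 2 ≤ a → ∀ b : ℤ, (∀ p ∈ Q, ∃ r : ℤ, ¬ (p : ℤ) ∣ r * (a * r + b)) →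
        Laws (pairs {q | ω ∈ A q} a b) a (const Q a b) := by
      intro a ha b hr
      have hfix : ∀ p ∈ Q, ∃ r : ℤ, ¬ (p : ℤ) ∣ ∏ f ∈ sys a b, f.eval r := by
        intro p hp
        obtain ⟨r, h⟩ := hr p hp
        exact ⟨r, by rw [sys_prod ha]; exact h⟩
      have h0 : (sys a b).Nonempty := by
        rw [← Finset.card_pos, sys_card ha]
        norm_num
      have h3 := Pool.Agent.N957.SQ.Fin.BC_pos Q hQ (sys a b) (fun f hf => ((sys_sep ha b).1 f hf).1) hfix
      obtain ⟨k1, k2, k3, k4⟩ := g1 (sys a b) h0 (sys_sep ha b) hfix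
      rw [sys_card ha, sys_const Q ha] at k1 k3 k4
      rw [sys_const Q ha] at h3
      exact transfer ha b h3 k1 k2 k3 (fun ε hε => (k4 ε hε).2)
    refine ⟨?_, hgen⟩
    exact hgen 2 le_rfl (-1) (fun p hp => ⟨1, fun h => (hQ p hp).one_lt.ne' (Nat.dvd_one.1 (by
      have h2 : (p : ℤ) ∣ 1 := by simpa using h
      exact_mod_cast h2))⟩)
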